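import Pool.Graph.R_seed8.R117.HS.KissB
import Pool.Graph.R_seed8.H161R2.KissLow

/-!
Codes which are invariant under a system of isometries with a frame property: the counting
argument.
-/

open Module Filter
open scoped InnerProductSpace Topology

namespace Pool.Agent.Helper46.KS

open Pool.Agent.H818R2 Pool.Agent.H161R2.KissSym Pool.Agent.R117.HS

variable {n : ℕ}

/-- the trace of a projection -/
theorem sum_proj (W : Submodule ℝ (E n)) :
    ∑ i, ‖W.starProjection (EuclideanSpace.basisFun (Fin n) ℝ i)‖ ^ 2 = (finrank ℝ W : ℝ) := by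
  have h1 : LinearMap.IsProj W (W.starProjection : E n →ₗ[ℝ] E n) :=
    ⟨fun x => W.starProjection_apply_mem x, fun x hx => by
      exact Submodule.starProjection_eq_self_iff.2 hx⟩
  have h2 := h1.trace
  rw [LinearMap.trace_eq_sum_inner _ (EuclideanSpace.basisFun (Fin n) ℝ)] at h2
  rw [← h2]
  apply Finset.sum_congr rfl
  intro i _
  set x := EuclideanSpace.basisFun (Fin n) ℝ i
  have h := Submodule.starProjection_inner_eq_zero (K := W) x (W.starProjection x)
      (Submodule.starProjection_apply_mem _ _)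
  rw [inner_sub_left, real_inner_self_eq_norm_sq] at h
  change _ = ⟪x, W.starProjection x⟫_ℝ
  linarith

/-- the vectors of `F` which are fixed by `h` -/
noncomputable def fixIn (F : Submodule ℝ (E n)) (h : Isom n) : Submodule ℝ (E n) :=
  F ⊓ LinearMap.ker (dif h)

theorem mem_fixIn {F : Submodule ℝ (E n)} {h : Isom n} {x : E n} :
    x ∈ fixIn F h ↔ x ∈ F ∧ h x = x := by
  rw [fixIn, Submodule.mem_inf, LinearMap.mem_ker, dif_apply, sub_eq_zero]

theorem fixIn_le (F : Submodule ℝ (E n)) (h : Isom n) : fixIn F h ≤ F := inf_le_left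

theorem proj_proj {U W : Submodule ℝ (E n)} (h : U ≤ W) (x : E n) :
    U.starProjection (W.starProjection x) = U.starProjection x := by
  have := Submodule.starProjection_comp_starProjection_of_le h
  exact congrArg (fun f => f x) this

theorem norm_sub_proj (U : Submodule ℝ (E n)) (x : E n) :
    ‖x - U.starProjection x‖ ^ 2 = ‖x‖ ^ 2 - ‖U.starProjection x‖ ^ 2 := by
  have h := Submodule.starProjection_inner_eq_zero (K := U) x (U.starProjection x)
      (Submodule.starProjection_apply_mem _ _)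
  rw [inner_sub_left, real_inner_self_eq_norm_sq] at h
  rw [norm_sub_sq_real]
  linarith

/-- `‖h - 1‖² ≤ l` -/
def DispLe (h : Isom n) (l : ℝ) : Prop := ∀ v, ‖h v - v‖ ^ 2 ≤ l * ‖v‖ ^ 2

theorem dispLe_four (h : Isom n) : DispLe h 4 := by
  intro v
  have h3 : ‖h v - v‖ ≤ 2 * ‖v‖ := by
    calc ‖h v - v‖ ≤ ‖h v‖ + ‖v‖ := norm_sub_le _ _
      _ = 2 * ‖v‖ := by rw [h.norm_map]; ring
  calc ‖h v - v‖ ^ 2 ≤ (2 * ‖v‖) ^ 2 := pow_le_pow_left₀ (norm_nonneg _) h3 2
    _ = 4 * ‖v‖ ^ 2 := by ring

/-- the drop of the dimension bounds the mean displacement -/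
theorem sum_displacement (F : Submodule ℝ (E n)) (h : Isom n) {l : ℝ} (hl : DispLe h l) :
    ∑ i, ‖h (F.starProjection (EuclideanSpace.basisFun (Fin n) ℝ i)) -
      F.starProjection (EuclideanSpace.basisFun (Fin n) ℝ i)‖ ^ 2 ≤
      l * ((finrank ℝ F : ℝ) - finrank ℝ (fixIn F h)) := by
  have key : ∀ b : E n, ‖h (F.starProjection b) - F.starProjection b‖ ^ 2 ≤
      l * (‖F.starProjection b‖ ^ 2 - ‖(fixIn F h).starProjection b‖ ^ 2) := by
    intro b
    set v := F.starProjection b with hv
    set K := fixIn F h with hK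
    set k := K.starProjection v with hk
    have h1 : h k = k := (mem_fixIn.1 (K.starProjection_apply_mem v)).2
    have h2 : h v - v = h (v - k) - (v - k) := by
      rw [map_sub, h1]
      abel
    have h4 : K.starProjection b = k := (proj_proj (fixIn_le F h) b).symm
    rw [h4]
    have h5 := norm_sub_proj K v
    rw [← hk] at h5
    rw [← h5, h2]
    exact hl (v - k)
  calc _ ≤ ∑ i, l * (‖F.starProjection (EuclideanSpace.basisFun (Fin n) ℝ i)‖ ^ 2 -
        ‖(fixIn F h).starProjection (EuclideanSpace.basisFun (Fin n) ℝ i)‖ ^ 2) :=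
        Finset.sum_le_sum (fun i _ => key _)
    _ = _ := by
        rw [← Finset.mul_sum, Finset.sum_sub_distrib, sum_proj, sum_proj]

/-- a system of isometries `u i` with weights:
`‖P_V v‖² ≤ ∑ w i ‖u i v - v‖² ≤ b ‖P_V v‖²` -/
structure Frame (V : Submodule ℝ (E n)) {ι : Type} [Fintype ι] (u : ι → Isom n) (w : ι → ℝ)
    (b : ℝ) : Prop where
  pos : ∀ i, 0 < w i
  lower : ∀ v, ‖V.starProjection v‖ ^ 2 ≤ ∑ i, w i * ‖u i v - v‖ ^ 2
  upper : ∀ v, ∑ i, w i * ‖u i v - v‖ ^ 2 ≤ b * ‖V.starProjection v‖ ^ 2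

theorem Frame.fix {V : Submodule ℝ (E n)} {ι : Type} [Fintype ι] {u : ι → Isom n} {w : ι → ℝ}
    {b : ℝ} (hF : Frame V u w b) (i : ι) {v : E n} (hv : v ∈ Vᗮ) : u i v = v := by
  have h1 := hF.upper v
  have h0 : V.starProjection v = 0 := by
    rw [Submodule.starProjection_apply_eq_zero_iff]
    exact hv
  rw [h0, norm_zero, zero_pow two_ne_zero, mul_zero] at h1
  have h1' : ∑ i, w i * ‖u i v - v‖ ^ 2 = 0 := le_antisymm h1 (Finset.sum_nonneg (fun j _ => by
    have := hF.pos j
    positivity))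
  have h2 := (Finset.sum_eq_zero_iff_of_nonneg (fun j _ => by
    have := hF.pos j
    positivity)).1 h1' i (Finset.mem_univ i)
  have h3 : ‖u i v - v‖ ^ 2 = 0 := by
    rcases mul_eq_zero.1 h2 with h | h
    · exact absurd h (hF.pos i).ne'
    · exact h
  have h4 : ‖u i v - v‖ = 0 := by
    rcases pow_eq_zero_iff (n := 2) two_ne_zero |>.1 h3 with h
    exact h
  rwa [norm_eq_zero, sub_eq_zero] at h4

/-- the points of `X` in `F` -/
noncomputable def inF (X : Finset (E n)) (F : Submodule ℝ (E n)) : Finset (E n) :=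
  open Classical in X.filter (fun x => x ∈ F)

theorem mem_inF {X : Finset (E n)} {F : Submodule ℝ (E n)} {x : E n} :
    x ∈ inF X F ↔ x ∈ X ∧ x ∈ F := by
  classical
  unfold inF
  rw [Finset.mem_filter]

theorem inF_fixIn (X : Finset (E n)) (F : Submodule ℝ (E n)) (h : Isom n) :
    inF X (fixIn F h) ⊆ inF X F := by
  intro x hx
  rw [mem_inF] at hx ⊢
  exact ⟨hx.1, fixIn_le F h hx.2⟩

/-- **One step.** -/
theorem step {V : Submodule ℝ (E n)} {ι : Type} [Fintype ι] {u : ι → Isom n} {w : ι → ℝ}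
    {b : ℝ} (hV : Frame V u w b) {l : ℝ} (hl : ∀ i, DispLe (u i) l) {X : Finset (E n)}
    (hX : ∀ x ∈ X, ‖x‖ = 1)
    (hinv : ∀ i, ∀ x ∈ X, u i x ∈ X) {s : ℝ}
    (hsep : ∀ x ∈ X, ∀ y ∈ X, x ≠ y → s ≤ ‖x - y‖ ^ 2)
    {F : Submodule ℝ (E n)} (hF : Vᗮ ≤ F) (f : ℕ)
    (hf : (finrank ℝ F : ℕ) = finrank ℝ Vᗮ + f) (hf0 : 0 < f) :
    ∃ i, finrank ℝ (fixIn F (u i)) < finrank ℝ F ∧
      s * (((inF X F).card : ℝ) - (inF X (fixIn F (u i))).card) * f ≤
        l * b * ((finrank ℝ F : ℝ) - finrank ℝ (fixIn F (u i))) * (inF X F).card := by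
  classical
  have hb : 1 ≤ b := by
    have hVne : V ≠ ⊥ := by
      intro hbot
      rw [hbot, Submodule.bot_orthogonal_eq_top, top_le_iff] at hF
      rw [hF, hbot, Submodule.bot_orthogonal_eq_top] at hf
      omega
    obtain ⟨v, hv, hv0⟩ := Submodule.exists_mem_ne_zero_of_ne_bot hVne
    have e1 := (hV.lower v).trans (hV.upper v)
    rw [Submodule.starProjection_eq_self_iff.2 hv] at e1
    have e2 : 0 < ‖v‖ ^ 2 := by
      have := norm_pos_iff.2 hv0
      positivity
    by_contra hlt
    push Not at hlt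
    nlinarith
  have hb0 : 0 < b := by linarith
  -- the total displacement of the points
  have h1 : ∀ i, s * (((inF X F).card : ℝ) - (inF X (fixIn F (u i))).card) ≤
      ∑ x ∈ inF X F, ‖u i x - x‖ ^ 2 := by
    intro i
    have e1 := Finset.sum_sdiff (f := fun x => ‖u i x - x‖ ^ 2) (inF_fixIn X F (u i))
    have e2 : ∑ x ∈ inF X (fixIn F (u i)), ‖u i x - x‖ ^ 2 = 0 := by
      apply Finset.sum_eq_zero
      intro x hx
      rw [(mem_fixIn.1 (mem_inF.1 hx).2).2, sub_self, norm_zero]
      norm_num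
    rw [← e1, e2, add_zero]
    have e3 : (((inF X F) \ (inF X (fixIn F (u i)))).card : ℝ) =
        ((inF X F).card : ℝ) - (inF X (fixIn F (u i))).card := by
      rw [Finset.card_sdiff_of_subset (inF_fixIn X F (u i)), Nat.cast_sub
        (Finset.card_le_card (inF_fixIn X F (u i)))]
    rw [← e3]
    calc s * (((inF X F) \ (inF X (fixIn F (u i)))).card : ℝ)
        = ∑ x ∈ (inF X F) \ (inF X (fixIn F (u i))), s := by
          rw [Finset.sum_const, nsmul_eq_mul, mul_comm]
      _ ≤ _ := by
          apply Finset.sum_le_sum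
          intro x hx
          rw [Finset.mem_sdiff] at hx
          have hx1 := mem_inF.1 hx.1
          have hne : u i x ≠ x := by
            intro h
            exact hx.2 (mem_inF.2 ⟨hx1.1, mem_fixIn.2 ⟨hx1.2, h⟩⟩)
          exact hsep _ (hinv i x hx1.1) _ hx1.1 hne
  have h2 : ∑ i, w i * (s * (((inF X F).card : ℝ) - (inF X (fixIn F (u i))).card)) ≤
      b * (inF X F).card := by
    calc _ ≤ ∑ i, w i * ∑ x ∈ inF X F, ‖u i x - x‖ ^ 2 :=
          Finset.sum_le_sum (fun i _ => mul_le_mul_of_nonneg_left (h1 i) (hV.pos i).le)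
      _ = ∑ x ∈ inF X F, ∑ i, w i * ‖u i x - x‖ ^ 2 := by
          simp_rw [Finset.mul_sum]
          rw [Finset.sum_comm]
      _ ≤ ∑ x ∈ inF X F, b * ‖V.starProjection x‖ ^ 2 :=
          Finset.sum_le_sum (fun x _ => hV.upper x)
      _ ≤ ∑ x ∈ inF X F, b := by
          apply Finset.sum_le_sum
          intro x hx
          have e1 := norm_sub_proj V x
          rw [hX x (mem_inF.1 hx).1] at e1
          have e2 : 0 ≤ ‖x - V.starProjection x‖ ^ 2 := by positivity
          have e3 : ‖V.starProjection x‖ ^ 2 ≤ 1 := by linarith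
          nlinarith
      _ = _ := by rw [Finset.sum_const, nsmul_eq_mul, mul_comm]
  have h3 : (f : ℝ) ≤ ∑ i, w i * (l * ((finrank ℝ F : ℝ) - finrank ℝ (fixIn F (u i)))) := by
    calc (f : ℝ) = (finrank ℝ F : ℝ) - finrank ℝ Vᗮ := by rw [hf]; push_cast; ring
      _ = ∑ j, ‖V.starProjection (F.starProjection (EuclideanSpace.basisFun (Fin n) ℝ j))‖ ^ 2 := by
          rw [← sum_proj F, ← sum_proj Vᗮ, ← Finset.sum_sub_distrib]
          apply Finset.sum_congr rfl
          intro j _
          set b := EuclideanSpace.basisFun (Fin n) ℝ j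
          have e1 := norm_sub_proj V (F.starProjection b)
          have e2 : F.starProjection b - V.starProjection (F.starProjection b) =
              Vᗮ.starProjection b := by
            rw [← proj_proj hF b]
            have := Submodule.starProjection_add_starProjection_orthogonal (K := V)
              (F.starProjection b)
            rw [sub_eq_iff_eq_add']
            exact this.symm
          rw [e2] at e1
          linarith
      _ ≤ ∑ j, ∑ i, w i * ‖u i (F.starProjection (EuclideanSpace.basisFun (Fin n) ℝ j)) -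
            F.starProjection (EuclideanSpace.basisFun (Fin n) ℝ j)‖ ^ 2 :=
          Finset.sum_le_sum (fun j _ => hV.lower _)
      _ = ∑ i, w i * ∑ j, ‖u i (F.starProjection (EuclideanSpace.basisFun (Fin n) ℝ j)) -
            F.starProjection (EuclideanSpace.basisFun (Fin n) ℝ j)‖ ^ 2 := by
          simp_rw [Finset.mul_sum]
          rw [Finset.sum_comm]
      _ ≤ _ := Finset.sum_le_sum (fun i _ =>
          mul_le_mul_of_nonneg_left (sum_displacement F (u i) (hl i)) (hV.pos i).le)
  by_contra hcon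
  push Not at hcon
  have hle : ∀ i, finrank ℝ (fixIn F (u i)) ≤ finrank ℝ F := fun i =>
    Submodule.finrank_mono (fixIn_le F (u i))
  have hterm : ∀ i, w i * (l * ((finrank ℝ F : ℝ) - finrank ℝ (fixIn F (u i)))) *
      (b * (inF X F).card) ≤
        w i * (s * (((inF X F).card : ℝ) - (inF X (fixIn F (u i))).card)) * f := by
    intro i
    rcases (hle i).lt_or_eq with h | h
    · have := hcon i h
      have := mul_le_mul_of_nonneg_left this.le (hV.pos i).le
      nlinarith
    · have he : fixIn F (u i) = F := Submodule.eq_of_le_of_finrank_eq (fixIn_le F (u i)) h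
      rw [he]
      simp
  have hsum := Finset.sum_le_sum (fun i (_ : i ∈ Finset.univ) => hterm i)
  rw [← Finset.sum_mul, ← Finset.sum_mul] at hsum
  -- some term has a drop
  have hex : ∃ i, finrank ℝ (fixIn F (u i)) < finrank ℝ F := by
    by_contra hno
    push Not at hno
    have : ∑ i, w i * (l * ((finrank ℝ F : ℝ) - finrank ℝ (fixIn F (u i)))) = 0 := by
      apply Finset.sum_eq_zero
      intro i _
      have : finrank ℝ (fixIn F (u i)) = finrank ℝ F := le_antisymm (hle i) (hno i)
      rw [this]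
      ring
    rw [this] at h3
    have : (0 : ℝ) < f := by exact_mod_cast hf0
    linarith
  obtain ⟨i₀, hi₀⟩ := hex
  have hstrict : ∑ i, w i * (l * ((finrank ℝ F : ℝ) - finrank ℝ (fixIn F (u i)))) *
      (b * (inF X F).card) < ∑ i, w i * (s * (((inF X F).card : ℝ) - (inF X (fixIn F (u i))).card)) * f := by
    apply Finset.sum_lt_sum (fun i _ => hterm i)
    refine ⟨i₀, Finset.mem_univ _, ?_⟩
    have := hcon i₀ hi₀
    have := mul_lt_mul_of_pos_left this (hV.pos i₀)
    nlinarith
  rw [← Finset.sum_mul, ← Finset.sum_mul] at hstrict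
  have hc0 : (0 : ℝ) ≤ b * (inF X F).card := by positivity
  have hf1 : (0 : ℝ) ≤ f := Nat.cast_nonneg _
  have h4 := mul_le_mul_of_nonneg_right h3 hc0
  have h5 := mul_le_mul_of_nonneg_right h2 hf1
  linarith

end Pool.Agent.Helper46.KS
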