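import Pool.Agent.Helper46.KS.Core

/-!
Codes which are invariant under a system of isometries with a frame property: the bounds.
-/

open Module Filter
open scoped InnerProductSpace Topology

namespace Pool.Agent.Helper46.KS

open Pool.Agent.H818R2 Pool.Agent.H161R2.KissSym Pool.Agent.R117.HS

variable {n : ℕ}

theorem drop_le (F : Submodule ℝ (E n)) (h : Isom n) :
    finrank ℝ F ≤ finrank ℝ (fixIn F h) + mdim h := by
  have h1 := Submodule.finrank_sup_add_finrank_inf_eq F (LinearMap.ker (dif h))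
  have h2 : finrank ℝ (LinearMap.ker (dif h)) + mdim h = finrank ℝ (E n) := by
    unfold mdim moved
    exact (LinearMap.ker (dif h)).finrank_add_finrank_orthogonal
  have h3 : finrank ℝ ↥(F ⊔ LinearMap.ker (dif h)) ≤ finrank ℝ (E n) := Submodule.finrank_le _
  unfold fixIn
  omega

theorem code_sep {θ : ℝ} {X : Finset (E n)} (hX : IsSphCode n θ X) :
    ∀ x ∈ X, ∀ y ∈ X, x ≠ y → 4 * Real.sin (θ / 2) ^ 2 ≤ ‖x - y‖ ^ 2 := by
  intro x hx y hy hxy
  have h1 := hX.2 x hx y hy hxy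
  rw [norm_sub_sq_real, hX.1 x hx, hX.1 y hy]
  have h2 : Real.cos θ = 1 - 2 * Real.sin (θ / 2) ^ 2 := by
    have h3 := Real.cos_two_mul (θ / 2)
    have h4 := Real.sin_sq_add_cos_sq (θ / 2)
    rw [show 2 * (θ / 2) = θ by ring] at h3
    linarith
  rw [h2] at h1
  linarith

theorem inF_code {θ : ℝ} {X : Finset (E n)} (hX : IsSphCode n θ X) (F : Submodule ℝ (E n)) :
    IsSphCode n θ (inF X F) :=
  ⟨fun x hx => hX.1 x (mem_inF.1 hx).1, fun x hx y hy hxy =>
    hX.2 x (mem_inF.1 hx).1 y (mem_inF.1 hy).1 hxy⟩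

theorem inF_card_le {θ : ℝ} (hs : 0 < Real.sin (θ / 2)) {X : Finset (E n)}
    (hX : IsSphCode n θ X) (F : Submodule ℝ (E n)) {k : ℕ} (hk : finrank ℝ F ≤ k) :
    (inF X F).card ≤ sphMax k θ :=
  (card_le_sub hs F (inF_code hX F) (fun x hx => (mem_inF.1 hx).2)).trans (sphMax_mono hs hk)

theorem inF_top (X : Finset (E n)) : inF X ⊤ = X := by
  ext z
  rw [mem_inF]
  simp

theorem count_aux {V : Submodule ℝ (E n)} {ι : Type} [Fintype ι] {u : ι → Isom n} {w : ι → ℝ}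
    {b l : ℝ} (hV : Frame V u w b) (hl : ∀ i, DispLe (u i) l)
    {θ : ℝ} (hs : 0 < Real.sin (θ / 2)) {X : Finset (E n)}
    (hX : IsSphCode n θ X) (hinv : ∀ i, ∀ x ∈ X, u i x ∈ X) {d : ℕ} (hd : ∀ i, mdim (u i) ≤ d)
    {κ : ℕ} {t : ℝ} (ht : 1 ≤ t)
    (hκ : ∀ y : ℝ, 0 ≤ y → y * t < 1 →
      (1 - y) ^ κ ≤ 1 - y * (l * b / (4 * Real.sin (θ / 2) ^ 2))) :
    ∀ f : ℕ, 1 ≤ f → ∀ F : Submodule ℝ (E n), Vᗮ ≤ F → finrank ℝ F = finrank ℝ Vᗮ + f →
      ((inF X F).card : ℝ) ≤ (f : ℝ) ^ κ * sphMax (finrank ℝ Vᗮ + ⌊t * d⌋₊) θ := by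
  intro f
  induction f using Nat.strong_induction_on with
  | _ f ih =>
    intro hf1 F hVF hF
    have hfR : (1 : ℝ) ≤ f := by exact_mod_cast hf1
    have hf0 : (0 : ℝ) < f := by linarith
    set A : ℝ := ((sphMax (finrank ℝ Vᗮ + ⌊t * d⌋₊) θ : ℕ) : ℝ) with hA
    have hA0 : 0 ≤ A := Nat.cast_nonneg _
    rcases le_or_gt (f : ℝ) (t * d) with hcase | hcase
    · have h1 : f ≤ ⌊t * d⌋₊ := Nat.le_floor hcase
      have h2 : ((inF X F).card : ℝ) ≤ A := by
        rw [hA]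
        exact_mod_cast inF_card_le hs hX F (k := finrank ℝ Vᗮ + ⌊t * d⌋₊) (by omega)
      have h3 : (1 : ℝ) ≤ (f : ℝ) ^ κ := one_le_pow₀ hfR
      nlinarith
    · obtain ⟨i, hlt, hineq⟩ := step hV hl hX.1 hinv (code_sep hX) hVF f hF hf1
      set F' := fixIn F (u i) with hF'
      have hVF' : Vᗮ ≤ F' := fun v hv => mem_fixIn.2 ⟨hVF hv, hV.fix i hv⟩
      have hdrop := (drop_le F (u i)).trans (Nat.add_le_add_left (hd i) _)
      rw [← hF'] at hdrop
      have hmono : finrank ℝ Vᗮ ≤ finrank ℝ F' := Submodule.finrank_mono hVF'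
      obtain ⟨r, hr⟩ : ∃ r, finrank ℝ F = finrank ℝ F' + r := ⟨finrank ℝ F - finrank ℝ F', by omega⟩
      have hr1 : 1 ≤ r := by omega
      have hrd : r ≤ d := by omega
      have hrdR : (r : ℝ) ≤ d := by exact_mod_cast hrd
      have hr0 : (0 : ℝ) ≤ r := Nat.cast_nonneg r
      have hd0 : (0 : ℝ) ≤ d := Nat.cast_nonneg d
      have hrf : (r : ℝ) < f := by nlinarith
      have hrf' : r < f := by exact_mod_cast hrf
      have hF'f : finrank ℝ F' = finrank ℝ Vᗮ + (f - r) := by omega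
      have hIH := ih (f - r) (by omega) (by omega) F' hVF' hF'f
      have hcast : ((f - r : ℕ) : ℝ) = f - r := Nat.cast_sub hrf'.le
      rw [hcast] at hIH
      have hdiff : (finrank ℝ F : ℝ) - finrank ℝ F' = r := by
        rw [hr]; push_cast; ring
      rw [hdiff] at hineq
      obtain ⟨y, hy⟩ : ∃ y : ℝ, y = r / f := ⟨_, rfl⟩
      have hy0 : 0 ≤ y := by rw [hy]; positivity
      have hyt : y * t < 1 := by
        rw [hy, div_mul_eq_mul_div, div_lt_one hf0]
        nlinarith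
      have hy1 : y < 1 := by nlinarith
      have hryf : (r : ℝ) = y * f := by rw [hy]; field_simp
      have hk := hκ y hy0 hyt
      have hs2 : 0 < Real.sin (θ / 2) ^ 2 := by positivity
      set N : ℝ := ((inF X F).card : ℝ) with hN
      set N' : ℝ := ((inF X F').card : ℝ) with hN'
      have hN0 : 0 ≤ N := Nat.cast_nonneg _
      have h1 : (1 - y * (l * b / (4 * Real.sin (θ / 2) ^ 2))) * N ≤ N' := by
        have h3 : 4 * Real.sin (θ / 2) ^ 2 * (N - N') ≤ l * b * y * N := by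
          have : 4 * Real.sin (θ / 2) ^ 2 * (N - N') * f ≤ l * b * y * N * f := by
            rw [hryf] at hineq
            linarith
          exact le_of_mul_le_mul_right this hf0
        have h4 : N - N' ≤ y * (l * b / (4 * Real.sin (θ / 2) ^ 2)) * N := by
          rw [mul_div_assoc', div_mul_eq_mul_div, le_div_iff₀ (by positivity)]
          linarith
        linarith
      have hpos : 0 < (1 - y) ^ κ := by
        have : 0 < 1 - y := by linarith
        positivity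
      have h5 : (1 - y) ^ κ * N ≤ (1 - y) ^ κ * ((f : ℝ) ^ κ * A) := by
        calc (1 - y) ^ κ * N ≤ (1 - y * (l * b / (4 * Real.sin (θ / 2) ^ 2))) * N :=
              mul_le_mul_of_nonneg_right hk hN0
          _ ≤ N' := h1
          _ ≤ ((f : ℝ) - r) ^ κ * A := hIH
          _ = (1 - y) ^ κ * ((f : ℝ) ^ κ * A) := by
              rw [hryf, show (f : ℝ) - y * f = (1 - y) * f by ring, mul_pow]
              ring
      exact le_of_mul_le_mul_left h5 hpos

/-- the bound for systems of isometries with the frame property -/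
theorem count {V : Submodule ℝ (E n)} {ι : Type} [Fintype ι] {u : ι → Isom n} {w : ι → ℝ}
    {b l : ℝ} (hV : Frame V u w b) (hl : ∀ i, DispLe (u i) l)
    {θ : ℝ} (hs : 0 < Real.sin (θ / 2)) {X : Finset (E n)}
    (hX : IsSphCode n θ X) (hinv : ∀ i, ∀ x ∈ X, u i x ∈ X) {d : ℕ} (hd : ∀ i, mdim (u i) ≤ d)
    {κ : ℕ} {t : ℝ} (ht : 1 ≤ t)
    (hκ : ∀ y : ℝ, 0 ≤ y → y * t < 1 →
      (1 - y) ^ κ ≤ 1 - y * (l * b / (4 * Real.sin (θ / 2) ^ 2))) :
    (X.card : ℝ) ≤ ((max 1 (finrank ℝ V) : ℕ) : ℝ) ^ κ *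
      sphMax (finrank ℝ Vᗮ + ⌊t * d⌋₊) θ := by
  have h0 : finrank ℝ (⊤ : Submodule ℝ (E n)) = finrank ℝ Vᗮ + finrank ℝ V := by
    rw [finrank_top, ← V.finrank_add_finrank_orthogonal]
    ring
  rcases Nat.eq_zero_or_pos (finrank ℝ V) with h | h
  · have h1 : X.card ≤ sphMax (finrank ℝ Vᗮ + ⌊t * d⌋₊) θ := by
      rw [← inF_top X]
      apply inF_card_le hs hX
      omega
    rw [h]
    simp only [Nat.zero_le, sup_of_le_left, Nat.cast_one, one_pow, one_mul]
    exact_mod_cast h1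
  · have h1 := count_aux hV hl hs hX hinv hd ht hκ (finrank ℝ V) h ⊤ le_top h0
    rw [inF_top] at h1
    rw [max_eq_right h]
    exact h1

/-- reflections and kissing configurations -/
theorem count_refl {V : Submodule ℝ (E n)} {ι : Type} [Fintype ι] {u : ι → Isom n} {w : ι → ℝ}
    (hV : Frame V u w 1) {X : Finset (E n)}
    (hX : IsSphCode n (Real.pi / 3) X) (hinv : ∀ i, ∀ x ∈ X, u i x ∈ X)
    (hd : ∀ i, mdim (u i) ≤ 1) :
    ∀ f : ℕ, 4 ≤ f → ∀ F : Submodule ℝ (E n), Vᗮ ≤ F → finrank ℝ F = finrank ℝ Vᗮ + f →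
      (inF X F).card ≤ f.choose 4 * kissing (finrank ℝ Vᗮ + 4) := by
  have hs : 0 < Real.sin (Real.pi / 3 / 2) := by rw [sin_kiss]; norm_num
  intro f
  induction f with
  | zero => intro h; omega
  | succ f ih =>
    intro hf4 F hVF hF
    rcases Nat.eq_or_lt_of_le hf4 with h | h
    · have : f = 3 := by omega
      subst this
      have h1 := inF_card_le hs hX F (k := finrank ℝ Vᗮ + 4) (by omega)
      simpa [kissing] using h1
    · obtain ⟨i, hlt, hineq⟩ := step hV (fun i => dispLe_four (u i)) hX.1 hinv (code_sep hX) hVF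
        (f + 1) hF (by omega)
      set F' := fixIn F (u i) with hF'
      have hVF' : Vᗮ ≤ F' := fun v hv => mem_fixIn.2 ⟨hVF hv, hV.fix i hv⟩
      have hdrop := (drop_le F (u i)).trans (Nat.add_le_add_left (hd i) _)
      have hr : finrank ℝ F = finrank ℝ F' + 1 := by
        rw [← hF'] at hdrop
        omega
      have hIH := ih (by omega) F' hVF' (by omega)
      have hdiff : (finrank ℝ F : ℝ) - finrank ℝ F' = 1 := by
        rw [hr]; push_cast; ring
      rw [hdiff, sin_kiss] at hineq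
      have h1 : ((f : ℝ) + 1 - 4) * (inF X F).card ≤ (f + 1) * (inF X F').card := by
        push_cast at hineq
        nlinarith
      have h2 : (f + 1 - 4) * (inF X F).card ≤ (f + 1) * (inF X F').card := by
        have : ((f + 1 - 4 : ℕ) : ℝ) = (f : ℝ) + 1 - 4 := by
          rw [Nat.cast_sub (by omega)]
          push_cast
          ring
        rw [← this] at h1
        exact_mod_cast h1
      have h3 : (f + 1 - 4) * (f + 1).choose 4 = (f + 1) * f.choose 4 := by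
        have h6 := Nat.choose_mul_succ_eq f 4
        rw [mul_comm (f + 1 - 4), ← h6]
        ring
      have h4 : (f + 1 - 4) * (inF X F).card ≤
          (f + 1 - 4) * ((f + 1).choose 4 * kissing (finrank ℝ Vᗮ + 4)) := by
        calc _ ≤ (f + 1) * (inF X F').card := h2
          _ ≤ (f + 1) * (f.choose 4 * kissing (finrank ℝ Vᗮ + 4)) := Nat.mul_le_mul_left _ hIH
          _ = _ := by rw [← mul_assoc, ← mul_assoc, h3]
      exact Nat.le_of_mul_le_mul_left h4 (by omega)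

/-- the exponent `8` for kissing configurations -/
theorem pow_eight (y : ℝ) (h0 : 0 ≤ y) (h1 : y * 5 < 1) :
    (1 - y) ^ 8 ≤ 1 - y * (4 * 1 / (4 * Real.sin (Real.pi / 3 / 2) ^ 2)) := by
  rw [sin_kiss]
  have e : y * (4 * 1 / (4 * (1 / 2) ^ 2)) = 4 * y := by ring
  rw [e]
  have a1 : (1 - y) ^ 2 ≤ 1 - 9 / 5 * y := by nlinarith
  have a2 : (1 - 9 / 5 * y) ^ 2 ≤ 1 - 2952 / 1000 * y := by nlinarith
  have a3 : (1 - 2952 / 1000 * y) ^ 2 ≤ 1 - 4 * y := by nlinarith
  have b1 : ((1 - y) ^ 2) ^ 2 ≤ (1 - 9 / 5 * y) ^ 2 :=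
    pow_le_pow_left₀ (by positivity) a1 2
  have b2 : (((1 - y) ^ 2) ^ 2) ^ 2 ≤ (1 - 2952 / 1000 * y) ^ 2 :=
    pow_le_pow_left₀ (by positivity) (b1.trans a2) 2
  calc (1 - y) ^ 8 = (((1 - y) ^ 2) ^ 2) ^ 2 := by ring
    _ ≤ _ := b2.trans a3

/-- exponents for all angles -/
theorem exists_exponent {c t : ℝ} (ht1 : 1 ≤ t) (ht : c < t) :
    ∃ κ : ℕ, ∀ y : ℝ, 0 ≤ y → y * t < 1 → (1 - y) ^ κ ≤ 1 - y * c := by
  have ht0 : 0 < t := by linarith
  obtain ⟨y₀, hy₀⟩ : ∃ y₀ : ℝ, y₀ = 1 / t := ⟨_, rfl⟩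
  have hy0 : 0 < y₀ := by rw [hy₀]; positivity
  have hyt : y₀ * t = 1 := by rw [hy₀]; field_simp
  have hy1 : y₀ ≤ 1 := by nlinarith
  have hgap : 0 < 1 - c * y₀ := by nlinarith
  obtain ⟨κ, hκ⟩ := exists_pow_lt_of_lt_one hgap (show 1 - y₀ < 1 by linarith)
  refine ⟨κ, fun y h0 h1 => ?_⟩
  have hyy : y ≤ y₀ := by
    by_contra h
    push Not at h
    nlinarith
  obtain ⟨m, hm⟩ : ∃ m : ℝ, m = y / y₀ := ⟨_, rfl⟩
  have hm0 : 0 ≤ m := by rw [hm]; positivity
  have hm1 : m ≤ 1 := by rw [hm, div_le_one hy0]; exact hyy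
  have hmy : m * y₀ = y := by rw [hm]; field_simp
  have hconv := (convexOn_pow (𝕜 := ℝ) κ).2 (x := 1) (y := 1 - y₀) (by simp [Set.mem_Ici])
    (by rw [Set.mem_Ici]; linarith) (show (0 : ℝ) ≤ 1 - m by linarith) hm0 (by ring)
  simp only [smul_eq_mul, one_pow, mul_one] at hconv
  have e : 1 - m + m * (1 - y₀) = 1 - y := by rw [← hmy]; ring
  rw [e] at hconv
  refine hconv.trans ?_
  have := mul_le_mul_of_nonneg_left hκ.le hm0
  nlinarith

end Pool.Agent.Helper46.KS
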