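import Pool.Agent.Helper46.KS.Count

/-!
Frames from finite groups of isometries.
-/

open Module Filter
open scoped InnerProductSpace Topology

namespace Pool.Agent.Helper46.KS

open Pool.Agent.H818R2 Pool.Agent.H161R2.KissSym Pool.Agent.R117.HS

variable {n : ℕ}

/-- the subspace `W` is invariant under the group `G` -/
def Inv (G : Subgroup (Isom n)) (W : Submodule ℝ (E n)) : Prop := ∀ h ∈ G, ∀ x ∈ W, h x ∈ W

theorem inv_apply (h : Isom n) (x : E n) : h (h⁻¹ x) = x := by
  change (h * h⁻¹) x = x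
  rw [mul_inv_cancel]
  rfl

theorem inv_apply' (h : Isom n) (x : E n) : h⁻¹ (h x) = x := by
  change (h⁻¹ * h) x = x
  rw [inv_mul_cancel]
  rfl

theorem inner_inv (h : Isom n) (x y : E n) : ⟪h x, y⟫_ℝ = ⟪x, h⁻¹ y⟫_ℝ := by
  rw [← h.inner_map_map x (h⁻¹ y), inv_apply]

theorem Inv.orth {G : Subgroup (Isom n)} {W : Submodule ℝ (E n)} (hW : Inv G W) : Inv G Wᗮ := by
  intro h hh x hx
  rw [Submodule.mem_orthogonal] at hx ⊢
  intro w hw
  have h1 := hx _ (hW h⁻¹ (G.inv_mem hh) w hw)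
  rw [real_inner_comm, inner_inv, real_inner_comm]
  exact h1

theorem Inv.inf {G : Subgroup (Isom n)} {W W' : Submodule ℝ (E n)} (hW : Inv G W)
    (hW' : Inv G W') : Inv G (W ⊓ W') :=
  fun h hh _ hx => ⟨hW h hh _ hx.1, hW' h hh _ hx.2⟩

theorem fix_of_orth {h : Isom n} {W : Submodule ℝ (E n)} (hW : moved h ≤ W) {x : E n}
    (hx : x ∈ Wᗮ) : h x = x := by
  have h1 : x ∈ (moved h)ᗮ := Submodule.orthogonal_le hW hx
  unfold moved at h1
  rw [Submodule.orthogonal_orthogonal, LinearMap.mem_ker, LinearMap.sub_apply,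
    LinearMap.id_apply, sub_eq_zero] at h1
  exact h1

/-- `2 - u - u⁻¹` -/
noncomputable def lap (u : Isom n) : E n →ₗ[ℝ] E n :=
  (2 : ℝ) • LinearMap.id - (u.toLinearEquiv : E n →ₗ[ℝ] E n) -
    (u⁻¹.toLinearEquiv : E n →ₗ[ℝ] E n)

theorem lap_apply (u : Isom n) (x : E n) : lap u x = (2 : ℝ) • x - u x - u⁻¹ x := rfl

theorem inner_lap (u : Isom n) (x : E n) : ⟪lap u x, x⟫_ℝ = ‖u x - x‖ ^ 2 := by
  rw [lap_apply, inner_sub_left, inner_sub_left, real_inner_smul_left, real_inner_self_eq_norm_sq,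
    norm_sub_sq_real, u.norm_map]
  have h1 : ⟪u⁻¹ x, x⟫_ℝ = ⟪u x, x⟫_ℝ := by
    rw [inner_inv, inv_inv, real_inner_comm]
  rw [h1]
  ring

theorem lap_symm (u : Isom n) (x y : E n) : ⟪lap u x, y⟫_ℝ = ⟪x, lap u y⟫_ℝ := by
  rw [lap_apply, lap_apply, inner_sub_left, inner_sub_left, inner_sub_right, inner_sub_right,
    real_inner_smul_left, real_inner_smul_right, inner_inv u x y, inner_inv u⁻¹ x y, inv_inv]
  ring

/-- the sum of the operators `2 - u - u⁻¹` over the conjugates of `h` -/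
noncomputable def lapSum (G : Subgroup (Isom n)) [Fintype G] (h : Isom n) : E n →ₗ[ℝ] E n :=
  ∑ g : G, lap ((g : Isom n) * h * (g : Isom n)⁻¹)

theorem lapSum_apply (G : Subgroup (Isom n)) [Fintype G] (h : Isom n) (x : E n) :
    lapSum G h x = ∑ g : G, lap ((g : Isom n) * h * (g : Isom n)⁻¹) x := by
  unfold lapSum
  rw [LinearMap.sum_apply]

theorem lapSum_symm (G : Subgroup (Isom n)) [Fintype G] (h : Isom n) :
    (lapSum G h).IsSymmetric := by
  intro x y
  rw [lapSum_apply, lapSum_apply, sum_inner, inner_sum]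
  exact Finset.sum_congr rfl (fun g _ => lap_symm _ x y)

theorem inner_lapSum (G : Subgroup (Isom n)) [Fintype G] (h : Isom n) (x : E n) :
    ⟪lapSum G h x, x⟫_ℝ = ∑ g : G, ‖((g : Isom n) * h * (g : Isom n)⁻¹) x - x‖ ^ 2 := by
  rw [lapSum_apply, sum_inner]
  exact Finset.sum_congr rfl (fun g _ => inner_lap _ x)

theorem lap_conj (k u : Isom n) (x : E n) : lap (k * u * k⁻¹) (k x) = k (lap u x) := by
  rw [lap_apply, lap_apply, map_sub, map_sub, map_smul]
  have h1 : (k * u * k⁻¹) (k x) = k (u x) := by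
    change k (u (k⁻¹ (k x))) = _
    rw [inv_apply']
  have h2 : (k * u * k⁻¹)⁻¹ (k x) = k (u⁻¹ x) := by
    have : (k * u * k⁻¹)⁻¹ = k * u⁻¹ * k⁻¹ := by group
    rw [this]
    change k (u⁻¹ (k⁻¹ (k x))) = _
    rw [inv_apply']
  rw [h1, h2]

theorem lapSum_comm (G : Subgroup (Isom n)) [Fintype G] (h : Isom n) {k : Isom n} (hk : k ∈ G)
    (x : E n) : lapSum G h (k x) = k (lapSum G h x) := by
  rw [lapSum_apply, lapSum_apply, map_sum]
  rw [← Equiv.sum_comp (Equiv.mulLeft (⟨k, hk⟩ : G))]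
  apply Finset.sum_congr rfl
  intro g _
  have h1 : (((Equiv.mulLeft (⟨k, hk⟩ : G)) g : G) : Isom n) = k * g := rfl
  rw [h1]
  have h2 : k * (g : Isom n) * h * (k * (g : Isom n))⁻¹ =
      k * ((g : Isom n) * h * (g : Isom n)⁻¹) * k⁻¹ := by group
  rw [h2, lap_conj]

/-- the frame identity for one class of conjugates and a minimal invariant subspace -/
theorem frame_single (G : Subgroup (Isom n)) [Fintype G] {W : Submodule ℝ (E n)} (hW0 : W ≠ ⊥)
    (hW : Inv G W) (hmin : ∀ W' ≤ W, W' ≠ ⊥ → Inv G W' → W' = W) {h : Isom n} (hh : h ∈ G)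
    (h1 : h ≠ 1) (hm : moved h ≤ W) :
    ∃ c : ℝ, 0 < c ∧ ∀ v, ∑ g : G, ‖((g : Isom n) * h * (g : Isom n)⁻¹) v - v‖ ^ 2 =
      c * ‖W.starProjection v‖ ^ 2 := by
  have hmem : ∀ g : G, (g : Isom n) * h * (g : Isom n)⁻¹ ∈ G := fun g =>
    G.mul_mem (G.mul_mem g.2 hh) (G.inv_mem g.2)
  have hTW : ∀ x ∈ W, lapSum G h x ∈ W := by
    intro x hx
    rw [lapSum_apply]
    apply Submodule.sum_mem
    intro g _
    rw [lap_apply]
    exact W.sub_mem (W.sub_mem (W.smul_mem _ hx) (hW _ (hmem g) x hx))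
      (hW _ (G.inv_mem (hmem g)) x hx)
  have hnt : Nontrivial W := Submodule.nontrivial_iff_ne_bot.2 hW0
  have hsym := (lapSum_symm G h).restrict_invariant hTW
  obtain ⟨c, hc⟩ : ∃ c : ℝ, Module.End.HasEigenvalue ((lapSum G h).restrict hTW) c :=
    ⟨_, hsym.hasEigenvalue_iSup_of_finiteDimensional⟩
  obtain ⟨⟨v₀, hv₀⟩, hv₀e, hv₀0⟩ := hc.exists_hasEigenvector
  rw [Module.End.mem_eigenspace_iff] at hv₀e
  have hv₀T : lapSum G h v₀ = c • v₀ := congrArg Subtype.val hv₀e
  have hv₀0' : v₀ ≠ 0 := fun h => hv₀0 (Subtype.ext h)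
  set W' : Submodule ℝ (E n) := W ⊓ LinearMap.ker (lapSum G h - c • LinearMap.id) with hW'
  have hmem' : ∀ x, x ∈ W' ↔ x ∈ W ∧ lapSum G h x = c • x := by
    intro x
    rw [hW', Submodule.mem_inf, LinearMap.mem_ker, LinearMap.sub_apply, LinearMap.smul_apply,
      LinearMap.id_apply, sub_eq_zero]
  have hW'eq : W' = W := by
    apply hmin W' inf_le_left
    · intro hbot
      have : v₀ ∈ W' := (hmem' v₀).2 ⟨hv₀, hv₀T⟩
      rw [hbot, Submodule.mem_bot] at this
      exact hv₀0' this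
    · intro k hk x hx
      rw [hmem'] at hx ⊢
      refine ⟨hW k hk x hx.1, ?_⟩
      rw [lapSum_comm G h hk, hx.2, map_smul]
  have hTc : ∀ x ∈ W, lapSum G h x = c • x := fun x hx => ((hmem' x).1 (by rw [hW'eq]; exact hx)).2
  have heq : ∀ v, ∑ g : G, ‖((g : Isom n) * h * (g : Isom n)⁻¹) v - v‖ ^ 2 =
      c * ‖W.starProjection v‖ ^ 2 := by
    intro v
    set p := W.starProjection v with hp
    have hpW : p ∈ W := W.starProjection_apply_mem v
    have e1 : v - p ∈ Wᗮ := Submodule.sub_starProjection_mem_orthogonal v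
    have e2 : ∀ g : G, ((g : Isom n) * h * (g : Isom n)⁻¹) v - v =
        ((g : Isom n) * h * (g : Isom n)⁻¹) p - p := by
      intro g
      have e3 : (g : Isom n)⁻¹ (v - p) ∈ Wᗮ := hW.orth _ (G.inv_mem g.2) _ e1
      have e4 : ((g : Isom n) * h * (g : Isom n)⁻¹) (v - p) = v - p := by
        change (g : Isom n) (h ((g : Isom n)⁻¹ (v - p))) = v - p
        rw [fix_of_orth hm e3, inv_apply]
      rw [map_sub] at e4
      have e5 : ((g : Isom n) * h * (g : Isom n)⁻¹) v =
          v - p + ((g : Isom n) * h * (g : Isom n)⁻¹) p := by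
        rw [← e4]; abel
      rw [e5]; abel
    rw [Finset.sum_congr rfl (fun g _ => by rw [e2 g]), ← inner_lapSum, hTc p hpW,
      real_inner_smul_left, real_inner_self_eq_norm_sq]
  refine ⟨c, ?_, heq⟩
  obtain ⟨v, hv⟩ : ∃ v, h v ≠ v := by
    by_contra hno
    push Not at hno
    exact h1 (LinearIsometryEquiv.ext hno)
  have h2 := heq v
  have h3 : ‖h v - v‖ ^ 2 ≤ ∑ g : G, ‖((g : Isom n) * h * (g : Isom n)⁻¹) v - v‖ ^ 2 := by
    have h4 := Finset.single_le_sum (f := fun g : G =>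
      ‖((g : Isom n) * h * (g : Isom n)⁻¹) v - v‖ ^ 2) (fun g _ => by positivity)
      (Finset.mem_univ (1 : G))
    have h5 : (((1 : G) : Isom n) * h * ((1 : G) : Isom n)⁻¹) = h := by
      rw [OneMemClass.coe_one]
      group
    simp only [h5] at h4
    exact h4
  have h6 : 0 < ‖h v - v‖ := norm_pos_iff.2 (sub_ne_zero.2 hv)
  have h7 : 0 < ‖h v - v‖ ^ 2 := by positivity
  by_contra hneg
  push Not at hneg
  have h8 : c * ‖W.starProjection v‖ ^ 2 ≤ 0 := mul_nonpos_of_nonpos_of_nonneg hneg (by positivity)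
  linarith

theorem DispLe.conj {h : Isom n} {l : ℝ} (hh : DispLe h l) (g : Isom n) :
    DispLe (g * h * g⁻¹) l := by
  intro v
  have h1 : (g * h * g⁻¹) v - v = g (h (g⁻¹ v) - g⁻¹ v) := by
    change g (h (g⁻¹ v)) - v = _
    rw [map_sub, inv_apply]
  rw [h1, g.norm_map]
  refine (hh _).trans (le_of_eq ?_)
  rw [g⁻¹.norm_map]

/-- every nonzero invariant subspace `W` of `V` contains the moved space of an element `h ≠ 1` of
`G` with `‖h - 1‖² ≤ l`, which moves at most `d` dimensions -/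
def Rich (G : Subgroup (Isom n)) (d : ℕ) (l : ℝ) (V : Submodule ℝ (E n)) : Prop :=
  ∀ W ≤ V, W ≠ ⊥ → Inv G W → ∃ h ∈ G, h ≠ 1 ∧ mdim h ≤ d ∧ DispLe h l ∧ moved h ≤ W

theorem pythagoras {W V : Submodule ℝ (E n)} (hWV : W ≤ V) (v : E n) :
    ‖V.starProjection v‖ ^ 2 = ‖W.starProjection v‖ ^ 2 + ‖(V ⊓ Wᗮ).starProjection v‖ ^ 2 := by
  set z := V.starProjection v with hz
  have hzV : z ∈ V := V.starProjection_apply_mem v
  have e1 : W.starProjection v = W.starProjection z := (proj_proj hWV v).symm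
  have e2 : (V ⊓ Wᗮ).starProjection v = (V ⊓ Wᗮ).starProjection z :=
    (proj_proj inf_le_left v).symm
  set p := W.starProjection z with hp
  have hpW : p ∈ W := W.starProjection_apply_mem z
  have e3 : z - p ∈ V ⊓ Wᗮ :=
    ⟨V.sub_mem hzV (hWV hpW), Submodule.sub_starProjection_mem_orthogonal z⟩
  have e4 : (V ⊓ Wᗮ).starProjection p = 0 := by
    rw [Submodule.starProjection_apply_eq_zero_iff, Submodule.mem_orthogonal]
    intro u hu
    have := hu.2
    rw [SetLike.mem_coe, Submodule.mem_orthogonal] at this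
    rw [real_inner_comm]
    exact this p hpW
  have e5 : (V ⊓ Wᗮ).starProjection z = z - p := by
    have h1 : (V ⊓ Wᗮ).starProjection (z - p) = z - p :=
      Submodule.starProjection_eq_self_iff.2 e3
    rw [map_sub, e4, sub_zero] at h1
    exact h1
  rw [e1, e2, e5, norm_sub_proj W z]
  ring

/-- frames from finite groups -/
theorem exists_frame (G : Subgroup (Isom n)) [Finite G] (d : ℕ) (l : ℝ) :
    ∀ (k : ℕ) (V : Submodule ℝ (E n)), finrank ℝ V = k → Inv G V → Rich G d l V →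
      ∃ (ι : Type) (_ : Fintype ι) (u : ι → Isom n) (w : ι → ℝ), Frame V u w 1 ∧
        ∀ i, u i ∈ G ∧ mdim (u i) ≤ d ∧ DispLe (u i) l := by
  classical
  have : Fintype G := Fintype.ofFinite G
  intro k
  induction k using Nat.strong_induction_on with
  | _ k ih =>
    intro V hVk hV hR
    by_cases hbot : V = ⊥
    · refine ⟨Empty, inferInstance, fun i => i.elim, fun i => i.elim,
        ⟨fun i => i.elim, ?_, ?_⟩, fun i => i.elim⟩
      · intro v
        rw [hbot, Submodule.starProjection_bot]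
        simp
      · intro v
        rw [hbot, Submodule.starProjection_bot]
        simp
    · -- a minimal invariant subspace
      have hex : ∃ m : ℕ, ∃ W ≤ V, W ≠ ⊥ ∧ Inv G W ∧ finrank ℝ W = m :=
        ⟨_, V, le_rfl, hbot, hV, rfl⟩
      obtain ⟨W, hWV, hW0, hW, hWm⟩ := Nat.find_spec hex
      have hmin : ∀ W' ≤ W, W' ≠ ⊥ → Inv G W' → W' = W := by
        intro W' hW' h0 hI
        apply Submodule.eq_of_le_of_finrank_le hW'
        rw [hWm]
        exact Nat.find_min' hex ⟨W', hW'.trans hWV, h0, hI, rfl⟩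
      obtain ⟨h, hh, h1, hd, hl, hm⟩ := hR W hWV hW0 hW
      obtain ⟨c, hc, hceq⟩ := frame_single G hW0 hW hmin hh h1 hm
      have hlt : finrank ℝ ↥(V ⊓ Wᗮ) < k := by
        have e1 := Submodule.finrank_add_inf_finrank_orthogonal hWV
        rw [inf_comm] at e1
        have e2 : 0 < finrank ℝ W := by
          rw [Module.finrank_pos_iff]
          exact Submodule.nontrivial_iff_ne_bot.2 hW0
        omega
      obtain ⟨ι, hι, u, w, hFr, hu⟩ := ih _ hlt (V ⊓ Wᗮ) rfl (hV.inf hW.orth)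
        (fun W' hW' h0 hI => hR W' (hW'.trans inf_le_left) h0 hI)
      have hsum : ∀ v, ∑ i : G ⊕ ι, (Sum.elim (fun _ => 1 / c) w i) *
          ‖(Sum.elim (fun g : G => (g : Isom n) * h * (g : Isom n)⁻¹) u i) v - v‖ ^ 2 =
          ‖W.starProjection v‖ ^ 2 + ∑ i, w i * ‖u i v - v‖ ^ 2 := by
        intro v
        rw [Fintype.sum_sum_type]
        simp only [Sum.elim_inl, Sum.elim_inr]
        rw [← Finset.mul_sum, hceq v]
        field_simp
      refine ⟨G ⊕ ι, inferInstance,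
        Sum.elim (fun g : G => (g : Isom n) * h * (g : Isom n)⁻¹) u,
        Sum.elim (fun _ => 1 / c) w, ⟨?_, ?_, ?_⟩, ?_⟩
      · rintro (g | i)
        · simp only [Sum.elim_inl]
          positivity
        · exact hFr.pos i
      · intro v
        rw [hsum v, pythagoras hWV v]
        have := hFr.lower v
        linarith
      · intro v
        rw [hsum v, pythagoras hWV v]
        have := hFr.upper v
        linarith
      · rintro (g | i)
        · simp only [Sum.elim_inl]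
          exact ⟨G.mul_mem (G.mul_mem g.2 hh) (G.inv_mem g.2), (mdim_conj _ _).le.trans hd,
            hl.conj _⟩
        · exact hu i

end Pool.Agent.Helper46.KS
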