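import Pool.Agent.Helper46.KS.Frames

/-!
Codes which are invariant under finite groups of isometries: groups which are rich in elements of
small moved space, irreducible groups, reflection groups; growth rates.
-/

open Module Filter
open scoped InnerProductSpace Topology

namespace Pool.Agent.Helper46.KS

open Pool.Agent.H818R2 Pool.Agent.H161R2.KissSym Pool.Agent.R117.HS

variable {n : ℕ}

/-- `g` maps `X` into itself -/
def Keeps (g : Isom n) (X : Finset (E n)) : Prop := ∀ x ∈ X, g x ∈ X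

theorem keeps_inv {g : Isom n} {X : Finset (E n)} (h : Keeps g X) : Keeps g⁻¹ X := by
  classical
  have h1 : X.image g = X := by
    apply Finset.eq_of_subset_of_card_le
    · intro y hy
      obtain ⟨x, hx, rfl⟩ := Finset.mem_image.1 hy
      exact h x hx
    · rw [Finset.card_image_of_injective _ g.injective]
  intro x hx
  rw [← h1] at hx
  obtain ⟨y, hy, rfl⟩ := Finset.mem_image.1 hx
  rw [inv_apply']
  exact hy

theorem keeps_closure {S : Set (Isom n)} {X : Finset (E n)} (h : ∀ s ∈ S, Keeps s X) :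
    ∀ g ∈ Subgroup.closure S, Keeps g X := by
  intro g hg
  induction hg using Subgroup.closure_induction with
  | mem x hx => exact h x hx
  | one => intro x hx; exact hx
  | mul x y _ _ hx hy => intro z hz; exact hx _ (hy z hz)
  | inv x _ hx => exact keeps_inv hx

/-- elements of order three have `‖g - 1‖² ≤ 3` -/
theorem dispLe_three {g : Isom n} (hg : g ^ 3 = 1) : DispLe g 3 := by
  intro v
  have h3 : g (g (g v)) = v := by
    have : (g ^ 3) v = v := by rw [hg]; rfl
    rwa [pow_succ, pow_two] at this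
  have e1 : ⟪g v, g (g v)⟫_ℝ = ⟪v, g v⟫_ℝ := g.inner_map_map v (g v)
  have e2 : ⟪v, g (g v)⟫_ℝ = ⟪v, g v⟫_ℝ := by
    have := g.inner_map_map v (g (g v))
    rw [h3, real_inner_comm] at this
    exact this.symm
  have h0 : 0 ≤ ‖v + g v + g (g v)‖ ^ 2 := by positivity
  have h4 : ‖v + g v + g (g v)‖ ^ 2 = 3 * ‖v‖ ^ 2 + 6 * ⟪v, g v⟫_ℝ := by
    rw [norm_add_sq_real, norm_add_sq_real, inner_add_left, e1, e2, g.norm_map, g.norm_map,
      g.norm_map]
    ring
  rw [norm_sub_sq_real, g.norm_map, real_inner_comm]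
  rw [h4] at h0
  linarith

/-- the bound for groups which are rich in elements of small moved space -/
theorem rich_bound (G : Subgroup (Isom n)) [Finite G] {d : ℕ} {l : ℝ} {V : Submodule ℝ (E n)}
    (hV : Inv G V) (hR : Rich G d l V) {θ : ℝ} (hs : 0 < Real.sin (θ / 2)) {X : Finset (E n)}
    (hX : IsSphCode n θ X) (hinv : ∀ g ∈ G, Keeps g X) {κ : ℕ} {t : ℝ} (ht : 1 ≤ t)
    (hκ : ∀ y : ℝ, 0 ≤ y → y * t < 1 →
      (1 - y) ^ κ ≤ 1 - y * (l * 1 / (4 * Real.sin (θ / 2) ^ 2))) :
    (X.card : ℝ) ≤ ((max 1 (finrank ℝ V) : ℕ) : ℝ) ^ κ *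
      sphMax (finrank ℝ Vᗮ + ⌊t * d⌋₊) θ := by
  obtain ⟨ι, hι, u, w, hF, hu⟩ := exists_frame G d l _ V rfl hV hR
  exact count hF (fun i => (hu i).2.2) hs hX (fun i => hinv _ (hu i).1) (fun i => (hu i).2.1) ht hκ

theorem span_keeps {G : Subgroup (Isom n)} {X : Finset (E n)} (hinv : ∀ g ∈ G, Keeps g X) :
    Inv G (Submodule.span ℝ (X : Set (E n))) := by
  intro h hh x hx
  induction hx using Submodule.span_induction with
  | mem x hx => exact Submodule.subset_span (hinv h hh x hx)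
  | zero => rw [map_zero]; exact Submodule.zero_mem _
  | add x y _ _ hx hy => rw [map_add]; exact Submodule.add_mem _ hx hy
  | smul a x _ hx => rw [map_smul]; exact Submodule.smul_mem _ _ hx

theorem eq_of_span {g h : Isom n} {X : Finset (E n)}
    (hspan : Submodule.span ℝ (X : Set (E n)) = ⊤) (hgh : ∀ x ∈ X, g x = h x) : g = h := by
  apply LinearIsometryEquiv.ext
  intro v
  have hv : v ∈ Submodule.span ℝ (X : Set (E n)) := by rw [hspan]; trivial
  induction hv using Submodule.span_induction with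
  | mem x hx => exact hgh x hx
  | zero => rw [map_zero, map_zero]
  | add x y _ _ hx hy => rw [map_add, map_add, hx, hy]
  | smul a x _ hx => rw [map_smul, map_smul, hx]

theorem finite_of_span {G : Subgroup (Isom n)} {X : Finset (E n)}
    (hspan : Submodule.span ℝ (X : Set (E n)) = ⊤) (hinv : ∀ g ∈ G, Keeps g X) : Finite G := by
  apply Finite.of_injective (fun (g : G) (x : X) => (⟨g.1 x.1, hinv g.1 g.2 x.1 x.2⟩ : X))
  intro g h hgh
  apply Subtype.ext
  apply eq_of_span hspan
  intro x hx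
  exact congrArg Subtype.val (congrFun hgh ⟨x, hx⟩)

/-- the group `G` is irreducible on `ℝⁿ` -/
def Irred (G : Subgroup (Isom n)) : Prop :=
  ∀ W : Submodule ℝ (E n), Inv G W → W = ⊥ ∨ W = ⊤

theorem irred_span {G : Subgroup (Isom n)} (hG : Irred G) {X : Finset (E n)}
    (hX : ∀ x ∈ X, ‖x‖ = 1) (hne : X.Nonempty) (hinv : ∀ g ∈ G, Keeps g X) :
    Submodule.span ℝ (X : Set (E n)) = ⊤ := by
  rcases hG _ (span_keeps hinv) with h | h
  · exfalso
    obtain ⟨x, hx⟩ := hne
    have h1 : x ∈ Submodule.span ℝ (X : Set (E n)) := Submodule.subset_span hx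
    rw [h, Submodule.mem_bot] at h1
    have h2 := hX x hx
    rw [h1, norm_zero] at h2
    exact zero_ne_one h2
  · exact h

theorem irred_rich {G : Subgroup (Isom n)} (hG : Irred G) {g : Isom n} (hg : g ∈ G) (h1 : g ≠ 1)
    {l : ℝ} (hl : DispLe g l) : Rich G (mdim g) l ⊤ := by
  intro W _ hW0 hW
  rcases hG W hW with h | h
  · exact absurd h hW0
  · rw [h]
    exact ⟨g, hg, h1, le_rfl, hl, le_top⟩

theorem inv_top (G : Subgroup (Isom n)) : Inv G ⊤ := fun _ _ _ _ => trivial

/-- irreducible groups -/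
theorem irred_bound {G : Subgroup (Isom n)} (hG : Irred G) {g : Isom n} (hg : g ∈ G) (h1 : g ≠ 1)
    {l : ℝ} (hl : DispLe g l) {θ : ℝ} (hs : 0 < Real.sin (θ / 2)) {X : Finset (E n)}
    (hX : IsSphCode n θ X) (hinv : ∀ g ∈ G, Keeps g X) {κ : ℕ} {t : ℝ} (ht : 1 ≤ t)
    (hκ : ∀ y : ℝ, 0 ≤ y → y * t < 1 →
      (1 - y) ^ κ ≤ 1 - y * (l * 1 / (4 * Real.sin (θ / 2) ^ 2))) :
    (X.card : ℝ) ≤ (n : ℝ) ^ κ * sphMax ⌊t * mdim g⌋₊ θ := by
  rcases X.eq_empty_or_nonempty with h | h
  · rw [h]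
    simp only [Finset.card_empty, Nat.cast_zero]
    positivity
  · have hn : 1 ≤ n := by
      rcases Nat.eq_zero_or_pos n with h0 | h0
      · exfalso
        subst h0
        obtain ⟨x, hx⟩ := h
        have := hX.1 x hx
        rw [Subsingleton.elim x 0, norm_zero] at this
        exact zero_ne_one this
      · exact h0
    have : Finite G := finite_of_span (irred_span hG hX.1 h hinv) hinv
    have h2 := rich_bound G (inv_top G) (irred_rich hG hg h1 hl) hs hX hinv ht hκ
    rw [Submodule.top_orthogonal_eq_bot, finrank_bot, zero_add, finrank_top,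
      finrank_euclideanSpace_fin, max_eq_right hn] at h2
    exact h2

/-- an isometry moving a spanning code has `‖g - 1‖ ≥ 1` -/
theorem one_le_disp {X : Finset (E n)} (hspan : Submodule.span ℝ (X : Set (E n)) = ⊤)
    (hX : IsSphCode n (Real.pi / 3) X) {g : Isom n} (h1 : g ≠ 1) (hg : Keeps g X) {l : ℝ}
    (hl : DispLe g l) : 1 ≤ l := by
  by_contra hlt
  push Not at hlt
  apply h1
  apply eq_of_span hspan
  intro x hx
  by_contra hne
  have h2 := code_sep hX (g x) (hg x hx) x hx hne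
  have h3 := hl x
  rw [hX.1 x hx] at h3
  rw [sin_kiss] at h2
  have h4 : (4 : ℝ) * (1 / 2) ^ 2 = 1 := by norm_num
  rw [h4] at h2
  linarith

theorem poly_le (κ : ℕ) {a : ℝ} (ha : 0 < a) :
    ∀ᶠ n : ℕ in atTop, ((n : ℝ) + 1) ^ κ ≤ (2 : ℝ) ^ (a * n) := by
  have hr : (1 : ℝ) < 2 ^ a := Real.one_lt_rpow (by norm_num) ha
  have h := tendsto_pow_const_div_const_pow_of_one_lt κ hr
  have h2 := h.eventually (gt_mem_nhds (show (0 : ℝ) < 1 / 2 ^ κ by positivity))
  filter_upwards [h2, eventually_ge_atTop 1] with n hn hn1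
  have hp : (0 : ℝ) < (2 ^ a) ^ n := by positivity
  rw [div_lt_iff₀ hp] at hn
  have h5 : (1 : ℝ) ≤ n := by exact_mod_cast hn1
  have h3 : ((n : ℝ) + 1) ^ κ ≤ (2 * n) ^ κ := by
    apply pow_le_pow_left₀ (by positivity)
    linarith
  have h4 : (2 : ℝ) ^ (a * n) = (2 ^ a) ^ n := by
    rw [Real.rpow_mul (by norm_num), Real.rpow_natCast]
  rw [h4]
  rw [mul_pow] at h3
  have h6 : (0 : ℝ) < 2 ^ κ := by positivity
  have h7 := mul_lt_mul_of_pos_left hn h6
  have h8 : (2 : ℝ) ^ κ * (1 / 2 ^ κ * (2 ^ a) ^ n) = (2 ^ a) ^ n := by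
    field_simp
  linarith

theorem sin_kiss_pos : 0 < Real.sin (Real.pi / 3 / 2) := by rw [sin_kiss]; norm_num

theorem code_le_kissing {X : Finset (E n)} (hX : IsSphCode n (Real.pi / 3) X) :
    X.card ≤ kissing n := by
  have h := inF_card_le sin_kiss_pos hX ⊤ (k := n) (by simp)
  rwa [inF_top] at h

/-- the growth rate for rich groups -/
theorem rich_growth {l : ℝ} (hl : 1 ≤ l) {ε : ℝ} (hε : 0 < ε) : ∀ᶠ n : ℕ in atTop,
    ∀ (G : Subgroup (Isom n)) (_ : Finite G) (d : ℕ) (V : Submodule ℝ (E n)), Inv G V →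
      Rich G d l V → ∀ X : Finset (E n), IsSphCode n (Real.pi / 3) X → (∀ g ∈ G, Keeps g X) →
      (X.card : ℝ) ≤ (2 : ℝ) ^ (cplus * (finrank ℝ Vᗮ + l * d) + ε * n) := by
  obtain ⟨κ, hκ⟩ := exists_exponent (c := l * 1 / (4 * Real.sin (Real.pi / 3 / 2) ^ 2))
    (t := l + ε) (by linarith) (by
      rw [sin_kiss]
      have : l * 1 / (4 * (1 / 2) ^ 2) = l := by ring
      rw [this]
      linarith)
  have hc0 : 0 ≤ cplus := le_trans (by norm_num) Pool.Agent.TH856.KL.cplus_ge
  have hc1 : cplus ≤ 397 / 1000 := cplus_le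
  filter_upwards [Pool.Agent.TH856.KL.kiss_unif (ε / 4) (by positivity),
    poly_le κ (a := ε / 4) (by positivity)] with n h1 h2 G hG d V hV hR X hX hinv
  have hn0 : (0 : ℝ) ≤ n := Nat.cast_nonneg n
  have hd0 : (0 : ℝ) ≤ d := Nat.cast_nonneg d
  have hm0 : (0 : ℝ) ≤ finrank ℝ Vᗮ := Nat.cast_nonneg _
  have htriv : (X.card : ℝ) ≤ (2 : ℝ) ^ (cplus * n + ε / 4 * n) := by
    have := code_le_kissing hX
    calc (X.card : ℝ) ≤ kissing n := by exact_mod_cast this
      _ ≤ _ := h1 n le_rfl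
  rcases le_or_gt (n : ℝ) d with hd | hd
  · refine htriv.trans (Real.rpow_le_rpow_of_exponent_le (by norm_num) ?_)
    have e1 : (n : ℝ) ≤ finrank ℝ Vᗮ + l * d := by nlinarith
    have e2 := mul_le_mul_of_nonneg_left e1 hc0
    nlinarith
  · have e3 : cplus * (ε * d) ≤ ε / 2 * n := by
      have : cplus * (ε * d) ≤ 397 / 1000 * (ε * d) :=
        mul_le_mul_of_nonneg_right hc1 (by positivity)
      nlinarith
    rcases le_or_gt (finrank ℝ Vᗮ + ⌊(l + ε) * d⌋₊) n with hle | hgt
    · have h3 := rich_bound G hV hR sin_kiss_pos hX hinv (by linarith) hκ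
      have h4 := h1 _ hle
      have h5 : ((max 1 (finrank ℝ V) : ℕ) : ℝ) ^ κ ≤ ((n : ℝ) + 1) ^ κ := by
        apply pow_le_pow_left₀ (Nat.cast_nonneg _)
        have h6 : finrank ℝ V ≤ n := by
          have := V.finrank_le
          rwa [finrank_euclideanSpace_fin] at this
        have h7 : max 1 (finrank ℝ V) ≤ n + 1 := by omega
        exact_mod_cast h7
      have h8 : ((finrank ℝ Vᗮ + ⌊(l + ε) * d⌋₊ : ℕ) : ℝ) ≤ finrank ℝ Vᗮ + (l + ε) * d := by
        push_cast
        have := Nat.floor_le (show 0 ≤ (l + ε) * d by positivity)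
        linarith
      calc (X.card : ℝ) ≤ _ := h3
        _ ≤ (2 : ℝ) ^ (ε / 4 * n) *
            (2 : ℝ) ^ (cplus * ((finrank ℝ Vᗮ + ⌊(l + ε) * d⌋₊ : ℕ) : ℝ) + ε / 4 * n) := by
            apply mul_le_mul (h5.trans h2) h4 (Nat.cast_nonneg _) (by positivity)
        _ = (2 : ℝ) ^ (ε / 4 * n +
            (cplus * ((finrank ℝ Vᗮ + ⌊(l + ε) * d⌋₊ : ℕ) : ℝ) + ε / 4 * n)) := by
            rw [← Real.rpow_add (by norm_num)]
        _ ≤ _ := by
            apply Real.rpow_le_rpow_of_exponent_le (by norm_num)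
            have e4 := mul_le_mul_of_nonneg_left h8 hc0
            nlinarith
    · refine htriv.trans (Real.rpow_le_rpow_of_exponent_le (by norm_num) ?_)
      have h9 : (n : ℝ) ≤ finrank ℝ Vᗮ + (l + ε) * d := by
        have := Nat.floor_le (show 0 ≤ (l + ε) * d by positivity)
        have h10 : (n : ℝ) < ((finrank ℝ Vᗮ + ⌊(l + ε) * d⌋₊ : ℕ) : ℝ) := by exact_mod_cast hgt
        push_cast at h10
        linarith
      have e5 := mul_le_mul_of_nonneg_left h9 hc0
      nlinarith

/-- configurations with a rich group are exponentially smaller than the largest ones -/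
theorem rich_fewer {l : ℝ} (hl : 1 ≤ l) : ∀ᶠ n : ℕ in atTop,
    ∀ (G : Subgroup (Isom n)) (_ : Finite G) (d : ℕ) (V : Submodule ℝ (E n)), Inv G V →
      Rich G d l V → (finrank ℝ Vᗮ : ℝ) + l * d ≤ 52 / 100 * n →
      ∀ X : Finset (E n), IsSphCode n (Real.pi / 3) X → (∀ g ∈ G, Keeps g X) →
      (X.card : ℝ) ≤ (2 : ℝ) ^ (-(n : ℝ) / 1000) * kissing n := by
  filter_upwards [rich_growth hl (ε := 1 / 20000) (by norm_num), eventually_gt_atTop 0]
    with n hn hn0 G hG d V hV hR hle X hX hinv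
  have h1 := hn G hG d V hV hR X hX hinv
  have h2 := wyner' n hn0
  have h3 : cplus ≤ 397 / 1000 := cplus_le
  have hn0' : (0 : ℝ) ≤ n := Nat.cast_nonneg n
  refine h1.trans ?_
  calc _ ≤ (2 : ℝ) ^ (-(n : ℝ) / 1000 + (83 / 400 : ℝ) * n) := by
        apply Real.rpow_le_rpow_of_exponent_le (by norm_num)
        have h4 : cplus * (finrank ℝ Vᗮ + l * d) ≤ 397 / 1000 * (52 / 100 * n) := by
          apply mul_le_mul h3 hle (by positivity) (by norm_num)
        linarith
    _ = (2 : ℝ) ^ (-(n : ℝ) / 1000) * (2 : ℝ) ^ ((83 / 400 : ℝ) * n) := by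
        rw [← Real.rpow_add (by norm_num)]
    _ ≤ _ := mul_le_mul_of_nonneg_left h2 (by positivity)

/-- the growth rate for irreducible groups -/
theorem irred_growth (l : ℝ) {ε : ℝ} (hε : 0 < ε) : ∀ᶠ n : ℕ in atTop,
    ∀ (G : Subgroup (Isom n)), Irred G → ∀ X : Finset (E n), IsSphCode n (Real.pi / 3) X →
      (∀ g ∈ G, Keeps g X) → ∀ g ∈ G, g ≠ 1 → DispLe g l →
      (X.card : ℝ) ≤ (2 : ℝ) ^ (cplus * (l * mdim g) + ε * n) := by
  by_cases hl : 1 ≤ l
  · filter_upwards [rich_growth hl hε] with n hn G hG X hX hinv g hg h1 hd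
    rcases X.eq_empty_or_nonempty with h | h
    · rw [h]
      simp only [Finset.card_empty, Nat.cast_zero]
      positivity
    · have hfin : Finite G := finite_of_span (irred_span hG hX.1 h hinv) hinv
      have := hn G hfin (mdim g) ⊤ (inv_top G) (irred_rich hG hg h1 hd) X hX hinv
      rwa [Submodule.top_orthogonal_eq_bot, finrank_bot, Nat.cast_zero, zero_add] at this
  · refine Eventually.of_forall (fun n G hG X hX hinv g hg h1 hd => ?_)
    rcases X.eq_empty_or_nonempty with h | h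
    · rw [h]
      simp only [Finset.card_empty, Nat.cast_zero]
      positivity
    · exact absurd (one_le_disp (irred_span hG hX.1 h hinv) hX h1 (hinv g hg) hd) hl

/-- irreducible groups with an element of small moved space: fewer points -/
theorem irred_fewer (l : ℝ) : ∀ᶠ n : ℕ in atTop,
    ∀ (G : Subgroup (Isom n)), Irred G → ∀ X : Finset (E n), IsSphCode n (Real.pi / 3) X →
      (∀ g ∈ G, Keeps g X) → ∀ g ∈ G, g ≠ 1 → DispLe g l → l * mdim g ≤ 52 / 100 * n →
      (X.card : ℝ) ≤ (2 : ℝ) ^ (-(n : ℝ) / 1000) * kissing n := by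
  by_cases hl : 1 ≤ l
  · filter_upwards [rich_fewer hl] with n hn G hG X hX hinv g hg h1 hd hle
    rcases X.eq_empty_or_nonempty with h | h
    · rw [h]
      simp only [Finset.card_empty, Nat.cast_zero]
      positivity
    · have hfin : Finite G := finite_of_span (irred_span hG hX.1 h hinv) hinv
      refine hn G hfin (mdim g) ⊤ (inv_top G) (irred_rich hG hg h1 hd) ?_ X hX hinv
      rw [Submodule.top_orthogonal_eq_bot, finrank_bot, Nat.cast_zero, zero_add]
      exact hle
  · refine Eventually.of_forall (fun n G hG X hX hinv g hg h1 hd _ => ?_)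
    rcases X.eq_empty_or_nonempty with h | h
    · rw [h]
      simp only [Finset.card_empty, Nat.cast_zero]
      positivity
    · exact absurd (one_le_disp (irred_span hG hX.1 h hinv) hX h1 (hinv g hg) hd) hl

theorem fix_closure {S : Set (Isom n)} {x : E n} (hx : x ∈ fixSp S) :
    ∀ g ∈ Subgroup.closure S, g x = x := by
  rw [mem_fixSp] at hx
  intro g hg
  induction hg using Subgroup.closure_induction with
  | mem y hy => exact hx y hy
  | one => rfl
  | mul y z _ _ hy hz =>
    change y (z x) = x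
    rw [hz, hy]
  | inv y _ hy =>
    have := inv_apply' y x
    rwa [hy] at this

theorem inv_fix (S : Set (Isom n)) : Inv (Subgroup.closure S) (fixSp S) := by
  intro h hh x hx
  rw [fix_closure hx h hh]
  exact hx

theorem sub_mem_moved (s : Isom n) (x : E n) : s x - x ∈ moved s := by
  unfold moved
  rw [Submodule.mem_orthogonal]
  intro y hy
  have hy' : s y = y := by
    rw [LinearMap.mem_ker, LinearMap.sub_apply, LinearMap.id_apply, sub_eq_zero] at hy
    exact hy
  rw [inner_sub_right]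
  have h1 : ⟪y, s x⟫_ℝ = ⟪y, x⟫_ℝ := by
    calc ⟪y, s x⟫_ℝ = ⟪s y, s x⟫_ℝ := by rw [hy']
      _ = _ := s.inner_map_map y x
  rw [h1, sub_self]

/-- the group generated by reflections is rich -/
theorem refl_rich {S : Set (Isom n)} (hS : ∀ s ∈ S, mdim s = 1) :
    Rich (Subgroup.closure S) 1 4 (fixSp S)ᗮ := by
  intro W hW hW0 hInv
  obtain ⟨w, hw, hw0⟩ := Submodule.exists_mem_ne_zero_of_ne_bot hW0
  have h1 : ∃ s ∈ S, s w ≠ w := by
    by_contra hno
    push Not at hno
    have h2 : w ∈ fixSp S := mem_fixSp.2 hno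
    have h3 := hW hw
    rw [Submodule.mem_orthogonal] at h3
    have h4 := h3 w h2
    rw [real_inner_self_eq_norm_sq] at h4
    have h5 : ‖w‖ = 0 := by
      rcases pow_eq_zero_iff (n := 2) two_ne_zero |>.1 h4 with h
      exact h
    exact hw0 (norm_eq_zero.1 h5)
  obtain ⟨s, hs, hsw⟩ := h1
  have hsG : s ∈ Subgroup.closure S := Subgroup.subset_closure hs
  refine ⟨s, hsG, ?_, (hS s hs).le, dispLe_four s, ?_⟩
  · rintro rfl
    exact hsw rfl
  · intro z hz
    have hv : s w - w ∈ moved s := sub_mem_moved s w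
    have hv0 : (⟨s w - w, hv⟩ : moved s) ≠ 0 := by
      intro h
      exact hsw (sub_eq_zero.1 (congrArg Subtype.val h))
    have h6 := (finrank_eq_one_iff_of_nonzero' (⟨s w - w, hv⟩ : moved s) hv0).1 (hS s hs) ⟨z, hz⟩
    obtain ⟨c, hc⟩ := h6
    have h7 : c • (s w - w) = z := congrArg Subtype.val hc
    rw [← h7]
    exact W.smul_mem _ (W.sub_mem (hInv s hsG w hw) hw)

/-- finite reflection groups: the upper bound -/
theorem refl_bound {S : Set (Isom n)} (hS : ∀ s ∈ S, mdim s = 1)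
    (hfin : Finite (Subgroup.closure S)) (hf : finrank ℝ (fixSp S) + 4 ≤ n) {X : Finset (E n)}
    (hX : IsSphCode n (Real.pi / 3) X) (hinv : ∀ s ∈ S, Keeps s X) :
    X.card ≤ (n - finrank ℝ (fixSp S)).choose 4 * kissing (finrank ℝ (fixSp S) + 4) := by
  obtain ⟨ι, hι, u, w, hF, hu⟩ := exists_frame (Subgroup.closure S) 1 4 _ (fixSp S)ᗮ rfl
    (inv_fix S).orth (refl_rich hS)
  have h1 : finrank ℝ (fixSp S) ≤ n := fix_le S
  have h2 := count_refl hF hX (fun i => keeps_closure hinv _ (hu i).1) (fun i => (hu i).2.1)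
    (n - finrank ℝ (fixSp S)) (by omega) ⊤ le_top (by
      rw [Submodule.orthogonal_orthogonal, finrank_top, finrank_euclideanSpace_fin]
      omega)
  rwa [inF_top, Submodule.orthogonal_orthogonal] at h2

/-- finite reflection groups: the lower bound -/
theorem refl_lower (S : Set (Isom n)) : ∃ X : Finset (E n), IsSphCode n (Real.pi / 3) X ∧
    (∀ x ∈ X, ∀ s ∈ S, s x = x) ∧ X.card = kissing (finrank ℝ (fixSp S)) := by
  obtain ⟨X, hX, hW, hc⟩ := exists_code_sub sin_kiss_pos (fixSp S)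
  exact ⟨X, hX, fun x hx => mem_fixSp.1 (hW x hx), hc⟩

end Pool.Agent.Helper46.KS
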